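import Mathlib
import Pool.Agent.Y262.EX.Stm

/-!
# Project EX: the collar is embedded
-/

set_option autoImplicit false

open Set Filter Topology MeasureTheory
open scoped ContDiff ComplexConjugate Real

noncomputable section

namespace Pool.Agent.Y166.EX.COL

open Pool.Agent.Y262.EG Pool.Agent.Y262.EX

/-- the key estimate -/
lemma key {A B s u v : ℝ} (hAB : 4 * (A * B) = s ^ 2 - 1) (hu : |u| < v)
    (h : |A * (u ^ 2 + v ^ 2) + B + s * u| < v) : |s| < 3 := by
  have hv : 0 < v := lt_of_le_of_lt (abs_nonneg u) hu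
  by_contra hs
  push Not at hs
  have h1 : |A * (u ^ 2 + v ^ 2) + B| < v + |s| * |u| := by
    have h2 : A * (u ^ 2 + v ^ 2) + B = (A * (u ^ 2 + v ^ 2) + B + s * u) - s * u := by ring
    calc |A * (u ^ 2 + v ^ 2) + B| = |(A * (u ^ 2 + v ^ 2) + B + s * u) - s * u| := by rw [← h2]
      _ ≤ |A * (u ^ 2 + v ^ 2) + B + s * u| + |s * u| := abs_sub _ _
      _ < v + |s| * |u| := by rw [abs_mul]; linarith
  have h2 : (A * (u ^ 2 + v ^ 2) + B) ^ 2 < (v + |s| * |u|) ^ 2 := by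
    rw [← sq_abs (A * (u ^ 2 + v ^ 2) + B)]
    exact pow_lt_pow_left₀ h1 (abs_nonneg _) (by norm_num)
  have h3 : (s ^ 2 - 1) * (u ^ 2 + v ^ 2) ≤ (A * (u ^ 2 + v ^ 2) + B) ^ 2 := by
    have h4 : 0 ≤ (A * (u ^ 2 + v ^ 2) - B) ^ 2 := sq_nonneg _
    have h5 : (A * (u ^ 2 + v ^ 2) + B) ^ 2 =
      (A * (u ^ 2 + v ^ 2) - B) ^ 2 + 4 * (A * B) * (u ^ 2 + v ^ 2) := by ring
    rw [h5, hAB]
    linarith
  have h4 : |s| ^ 2 = s ^ 2 := sq_abs s
  have h5 : |u| ^ 2 = u ^ 2 := sq_abs u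
  rw [← h4, ← h5] at h3
  rw [← h5] at h2
  set m := |s|
  set x := |u|
  have hx : 0 ≤ x := abs_nonneg u
  have h6 : (m ^ 2 - 1) * (x ^ 2 + v ^ 2) < (v + m * x) ^ 2 := lt_of_le_of_lt h3 h2
  have h7 : m ^ 2 * v ^ 2 < 2 * v ^ 2 + x ^ 2 + 2 * m * x * v := by nlinarith
  have h8 : x ^ 2 < v ^ 2 := by nlinarith
  have h9 : 2 * m * x * v ≤ 2 * m * v * v := by
    have : 0 ≤ 2 * m * v := by positivity
    nlinarith
  have h10 : (m ^ 2 - 2 * m - 3) * v ^ 2 < 0 := by nlinarith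
  have h11 : 0 ≤ m ^ 2 - 2 * m - 3 := by nlinarith
  have h12 : 0 ≤ (m ^ 2 - 2 * m - 3) * v ^ 2 := by positivity
  linarith

/-- the fundamental solution -/
lemma fund : Pell.IsFundamental (Pell.Solution₁.mk (d := 12) 7 2 (by norm_num)) := by
  refine ⟨by simp, by simp, ?_⟩
  intro b hb
  simp only [Pell.Solution₁.x_mk]
  by_contra h
  push Not at h
  have hp := b.prop
  have h1 : b.y ^ 2 ≤ 2 := by nlinarith
  have h2 : b.y ≤ 1 := by nlinarith
  have h3 : -1 ≤ b.y := by nlinarith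
  generalize b.x = x at *
  generalize b.y = y at *
  interval_cases y <;> interval_cases x <;> omega

/-- the value of a solution -/
def val (s : Pell.Solution₁ 12) : ℝ := s.x + 2 * Real.sqrt 3 * s.y

lemma val_mul (s t : Pell.Solution₁ 12) : val (s * t) = val s * val t := by
  unfold val
  rw [Pell.Solution₁.x_mul, Pell.Solution₁.y_mul]
  push_cast
  have h : Real.sqrt 3 ^ 2 = 3 := Real.sq_sqrt (by norm_num)
  linear_combination (-4 * (s.y : ℝ) * t.y) * h

lemma val_one : val 1 = 1 := by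
  simp [val]

/-- the homomorphism -/
def vhom : Pell.Solution₁ 12 →* ℝ where
  toFun := val
  map_one' := val_one
  map_mul' := val_mul

lemma val_inv (s : Pell.Solution₁ 12) : vhom s⁻¹ = (vhom s)⁻¹ := by
  apply eq_inv_of_mul_eq_one_left
  rw [← map_mul, inv_mul_cancel, map_one]

lemma val_zpow (s : Pell.Solution₁ 12) (k : ℤ) : val (s ^ k) = val s ^ k :=
  map_zpow' vhom val_inv s k

lemma val_neg (s : Pell.Solution₁ 12) : val (-s) = -val s := by
  unfold val
  rw [Pell.Solution₁.x_neg, Pell.Solution₁.y_neg]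
  push_cast
  ring

lemma val_fund : val (Pell.Solution₁.mk (d := 12) 7 2 (by norm_num)) = 7 + 4 * Real.sqrt 3 := by
  unfold val
  simp
  ring

/-- elements of the unit group -/
lemma pell {a b : ℤ} (h : a ^ 2 - 12 * b ^ 2 = 1) :
    ∃ k : ℤ, ((a : ℝ) + 2 * Real.sqrt 3 * b) ^ 2 = (((7 + 4 * Real.sqrt 3) ^ 2 : ℝ)) ^ k := by
  obtain ⟨k, hk⟩ := fund.eq_zpow_or_neg_zpow (Pell.Solution₁.mk (d := 12) a b h)
  refine ⟨k, ?_⟩
  have h1 : (a : ℝ) + 2 * Real.sqrt 3 * b = val (Pell.Solution₁.mk (d := 12) a b h) := by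
    simp [val]
  rw [h1]
  rcases hk with hk | hk
  · rw [hk, val_zpow, val_fund, ← zpow_natCast, ← zpow_natCast, ← zpow_mul, ← zpow_mul]
    congr 1
    exact mul_comm _ _
  · rw [hk, val_neg, neg_sq, val_zpow, val_fund, ← zpow_natCast, ← zpow_natCast, ← zpow_mul,
      ← zpow_mul]
    congr 1
    exact mul_comm _ _

lemma W_int (hW : StW) (z : ℂ) (k : ℤ) :
    W (z + k * (2 * π * Complex.I)) = ((((7 + 4 * Real.sqrt 3) ^ 2 : ℝ) ^ k : ℝ) : ℂ) * W z := by
  have h := fun z => (hW.2.2.2.2.1 z).2.2.1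
  have h0 : ((7 + 4 * Real.sqrt 3) ^ 2 : ℝ) ≠ 0 := by positivity
  generalize hE : ((7 + 4 * Real.sqrt 3) ^ 2 : ℝ) = E at *
  have h0' : (E : ℂ) ≠ 0 := by exact_mod_cast h0
  induction k using Int.induction_on with
  | zero => simp
  | succ i ih =>
    have h1 : z + ((i + 1 : ℤ) : ℂ) * (2 * π * Complex.I) =
      (z + ((i : ℤ) : ℂ) * (2 * π * Complex.I)) + 2 * π * Complex.I := by push_cast; ring
    rw [h1, h, ih, zpow_add₀ h0, zpow_one]
    push_cast
    ring
  | pred i ih =>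
    have h1 : (z + ((-i - 1 : ℤ) : ℂ) * (2 * π * Complex.I)) + 2 * π * Complex.I =
      z + ((-i : ℤ) : ℂ) * (2 * π * Complex.I) := by push_cast; ring
    have h2 := h (z + ((-i - 1 : ℤ) : ℂ) * (2 * π * Complex.I))
    rw [h1, ih] at h2
    have h3 : W (z + ((-i - 1 : ℤ) : ℂ) * (2 * π * Complex.I)) =
      (E : ℂ)⁻¹ * (((E ^ (-i : ℤ) : ℝ) : ℂ) * W z) := by
      rw [h2]
      field_simp
    rw [h3, zpow_sub₀ h0, zpow_one]
    push_cast
    field_simp

lemma shift_mem {w : ℂ} (hw : w ∈ Om) (k : ℤ) : w + k * (2 * π * Complex.I) ∈ Om := by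
  have h : (w + k * (2 * π * Complex.I)).re = w.re := by
    simp
  unfold Om at *
  simp only [mem_ofPred_eq] at *
  rw [h]
  exact hw

/-- diagonal elements act by translations -/
lemma diag (hM : StMob) (hW : StW) (γ : Gq) (hc : γ.c = 0) (hd : γ.d = 0) (k : ℤ)
    (hk : (m11 γ) ^ 2 = (((7 + 4 * Real.sqrt 3) ^ 2 : ℝ)) ^ k) :
    ∀ w ∈ Om, ac γ w = w + k * (2 * π * Complex.I) := by
  intro w hw
  have hdet := hM.2.2 γ
  have h12 : m12 γ = 0 := by simp [m12, hc, hd]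
  have h21 : m21 γ = 0 := by simp [m21, hc, hd]
  rw [h12, h21] at hdet
  have hdet' : m11 γ * m22 γ = 1 := by linarith
  have h22 : m22 γ ≠ 0 := by
    intro h
    rw [h] at hdet'
    simp at hdet'
  have h22' : (m22 γ : ℂ) ≠ 0 := by exact_mod_cast h22
  have hmob : mob γ (W w) = (((m11 γ) ^ 2 : ℝ) : ℂ) * W w := by
    unfold mob
    rw [h12, h21]
    have h3 : (m11 γ : ℂ) * m22 γ = 1 := by exact_mod_cast hdet'
    rw [div_eq_iff (by simpa using h22')]
    push_cast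
    linear_combination (-(m11 γ : ℂ) * W w) * h3
  unfold ac
  rw [hmob, hk, ← W_int hW w k]
  exact (hW.2.2.1 _ (shift_mem hw k)).2

theorem colT : StMob → StW → StAc → StAnis → StCol := by
  intro hM hW hA hN
  have hL : 0 < L0 := hW.1
  have hsub : ∀ z ∈ Stp L0 (3 / 2 * L0), z ∈ Om := by
    intro z hz
    unfold Stp at hz
    unfold Om
    simp only [mem_ofPred_eq] at *
    constructor <;> linarith [hz.1, hz.2]
  constructor
  · intro z hz γ hγ
    have hzO := hsub z hz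
    have hwO := hsub _ hγ
    have h1 := (hW.2.2.2.2.2.2.2 z hzO).1 hz
    have h2 := (hW.2.2.2.2.2.2.2 _ hwO).1 hγ
    rw [(hA.1 γ z hzO).2.1] at h2
    have hpos := (hW.2.2.1 z hzO).1
    obtain ⟨hden, him, _, _, _⟩ := hM.1 γ (W z) hpos
    have hdet := hM.2.2 γ
    have hns : 0 < Complex.normSq ((m21 γ : ℂ) * W z + m22 γ) := Complex.normSq_pos.2 hden
    have hre : (mob γ (W z)).re = (m11 γ * m21 γ * ((W z).re ^ 2 + (W z).im ^ 2) + m12 γ * m22 γ +
      (m11 γ * m22 γ + m12 γ * m21 γ) * (W z).re) /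
      Complex.normSq ((m21 γ : ℂ) * W z + m22 γ) := by
      unfold mob
      rw [Complex.div_re]
      simp only [Complex.add_re, Complex.mul_re, Complex.ofReal_re, Complex.ofReal_im,
        Complex.add_im, Complex.mul_im, zero_mul, sub_zero, add_zero]
      rw [← add_div]
      congr 1
      ring
    rw [hre, him, abs_div, abs_of_pos hns, div_lt_div_iff_of_pos_right hns] at h2
    -- the integer `n`
    have hs3 : Real.sqrt 3 ^ 2 = 3 := Real.sq_sqrt (by norm_num)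
    have hn : m12 γ * m21 γ = ((-4 * γ.c ^ 2 + 12 * γ.d ^ 2 : ℤ) : ℝ) := by
      unfold m12 m21
      push_cast
      linear_combination (4 * (γ.d : ℝ) ^ 2) * hs3
    have hk := key (A := m11 γ * m21 γ) (B := m12 γ * m22 γ)
      (s := m11 γ * m22 γ + m12 γ * m21 γ) (u := (W z).re) (v := (W z).im) (by
        linear_combination (-(m11 γ * m22 γ - m12 γ * m21 γ + 1)) * hdet) h1 h2
    have h11 : m11 γ * m22 γ + m12 γ * m21 γ =
      ((2 * (-4 * γ.c ^ 2 + 12 * γ.d ^ 2) + 1 : ℤ) : ℝ) := by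
      push_cast
      push_cast at hn
      linear_combination hdet + 2 * hn
    rw [h11, ← Int.cast_abs] at hk
    have hk' : |2 * (-4 * γ.c ^ 2 + 12 * γ.d ^ 2) + 1| < 3 := by exact_mod_cast hk
    rw [abs_lt] at hk'
    have hz0 : -4 * γ.c ^ 2 + 12 * γ.d ^ 2 = 0 := by
      generalize γ.c ^ 2 = p at *
      generalize γ.d ^ 2 = q at *
      omega
    obtain ⟨_, _, hc, hd⟩ := hN 0 0 γ.c γ.d (by linear_combination -hz0)
    have hp : γ.a ^ 2 - 12 * γ.b ^ 2 = 1 := by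
      have h := γ.nrm
      rw [hc, hd] at h
      linear_combination h
    obtain ⟨k, hk⟩ := pell hp
    exact ⟨k, diag hM hW γ hc hd k hk⟩
  · refine ⟨⟨7, 2, 0, 0, by norm_num⟩, ?_⟩
    intro w hw
    have h := diag hM hW ⟨7, 2, 0, 0, by norm_num⟩ rfl rfl 1 (by
      unfold m11
      push_cast
      rw [zpow_one]
      ring) w hw
    rw [h]
    push_cast
    ring

end Pool.Agent.Y166.EX.COL
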